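import Pool.Agent.W787.PS.StmD

set_option autoImplicit false
set_option linter.all false

open MeasureTheory Set Metric Filter Topology
open scoped ENNReal

noncomputable section

namespace Pool.Agent.W918.PS

open Pool.Agent.W787.PS

/-- majorants -/
def gs (b : ℂ → ℂ) (Kn : ℝ≥0∞) : ℕ → ℂ → ℝ≥0∞
  | 0 => fun ξ => ‖b ξ‖ₑ
  | n + 1 => fun ξ => Kn * ∫⁻ η, ‖b (ξ - η)‖ₑ * gs b Kn n η

/-- the terms of the Neumann series -/
def hs (b m : ℂ → ℂ) : ℕ → ℂ → ℂ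
  | 0 => b
  | n + 1 => fun ξ => ∫ η, b (ξ - η) * (m η * hs b m n η)

theorem gs_meas {b : ℂ → ℂ} (hb : Continuous b) (Kn : ℝ≥0∞) (n : ℕ) : Measurable (gs b Kn n) := by
  induction n with
  | zero => exact hb.measurable.enorm
  | succ n ih =>
    have h1 : Measurable fun p : ℂ × ℂ => ‖b (p.1 - p.2)‖ₑ * gs b Kn n p.2 :=
      (hb.measurable.comp (measurable_fst.sub measurable_snd)).enorm.mul (ih.comp measurable_snd)
    exact h1.lintegral_prod_right'.const_mul Kn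

theorem hs_meas {b m : ℂ → ℂ} (hb : Continuous b) (hm : Measurable m) (n : ℕ) : Measurable (hs b m n) := by
  induction n with
  | zero => exact hb.measurable
  | succ n ih =>
    have h1 : Measurable fun p : ℂ × ℂ => b (p.1 - p.2) * (m p.2 * hs b m n p.2) :=
      (hb.measurable.comp (measurable_fst.sub measurable_snd)).mul
        ((hm.comp measurable_snd).mul (ih.comp measurable_snd))
    exact h1.stronglyMeasurable.integral_prod_right'.measurable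

theorem hs_le {b m : ℂ → ℂ} (hb : Continuous b) {Kn : ℝ≥0∞} (hK : ∀ ξ, ‖m ξ‖ₑ ≤ Kn) (n : ℕ) (ξ : ℂ) :
    ‖hs b m n ξ‖ₑ ≤ gs b Kn n ξ := by
  induction n generalizing ξ with
  | zero => exact le_rfl
  | succ n ih =>
    show ‖∫ η, b (ξ - η) * (m η * hs b m n η)‖ₑ ≤ Kn * ∫⁻ η, ‖b (ξ - η)‖ₑ * gs b Kn n η
    refine (enorm_integral_le_lintegral_enorm _).trans ?_
    have hm1 : Measurable fun η => ‖b (ξ - η)‖ₑ * gs b Kn n η :=
      (hb.measurable.comp (measurable_const.sub measurable_id)).enorm.mul (gs_meas hb Kn n)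
    rw [← lintegral_const_mul Kn hm1]
    apply lintegral_mono
    intro η
    simp only [enorm_mul]
    calc ‖b (ξ - η)‖ₑ * (‖m η‖ₑ * ‖hs b m n η‖ₑ) ≤ ‖b (ξ - η)‖ₑ * (Kn * gs b Kn n η) := by
          gcongr
          · exact hK η
          · exact ih η
      _ = Kn * (‖b (ξ - η)‖ₑ * gs b Kn n η) := by ring

theorem gs_w {b : ℂ → ℂ} (hb : Continuous b) (Kn : ℝ≥0∞) {w : ℂ → ℝ≥0∞} (hw : Measurable w)
    (hsub : ∀ ξ η, w ξ ≤ w (ξ - η) * w η) (n : ℕ) :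
    ∫⁻ ξ, w ξ * gs b Kn (n + 1) ξ ≤ Kn * (∫⁻ ξ, w ξ * ‖b ξ‖ₑ) * ∫⁻ ξ, w ξ * gs b Kn n ξ := by
  have hg := gs_meas hb Kn n
  have hbm : Measurable fun p : ℂ × ℂ => ‖b (p.1 - p.2)‖ₑ :=
    (hb.measurable.comp (measurable_fst.sub measurable_snd)).enorm
  have e1 : ∫⁻ ξ, w ξ * gs b Kn (n + 1) ξ = ∫⁻ ξ, ∫⁻ η, Kn * (w ξ * (‖b (ξ - η)‖ₑ * gs b Kn n η)) := by
    apply lintegral_congr
    intro ξ
    show w ξ * (Kn * ∫⁻ η, ‖b (ξ - η)‖ₑ * gs b Kn n η) = _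
    have hm1 : Measurable fun η => ‖b (ξ - η)‖ₑ * gs b Kn n η :=
      (hb.measurable.comp (measurable_const.sub measurable_id)).enorm.mul hg
    rw [lintegral_const_mul Kn (hm1.const_mul (w ξ)), lintegral_const_mul (w ξ) hm1]
    ring
  rw [e1]
  have hmeas : Measurable fun p : ℂ × ℂ => Kn * (w p.1 * (‖b (p.1 - p.2)‖ₑ * gs b Kn n p.2)) :=
    ((hw.comp measurable_fst).mul (hbm.mul (hg.comp measurable_snd))).const_mul Kn
  rw [lintegral_lintegral_swap hmeas.aemeasurable]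
  have e2 : ∀ η, ∫⁻ ξ, Kn * (w ξ * (‖b (ξ - η)‖ₑ * gs b Kn n η)) ≤
      Kn * (∫⁻ ξ, w ξ * ‖b ξ‖ₑ) * (w η * gs b Kn n η) := by
    intro η
    have hm2 : Measurable fun ξ => w ξ * ‖b ξ‖ₑ := hw.mul hb.measurable.enorm
    have hm3 : Measurable fun ξ => w (ξ - η) * ‖b (ξ - η)‖ₑ := hm2.comp (measurable_id.sub_const η)
    calc ∫⁻ ξ, Kn * (w ξ * (‖b (ξ - η)‖ₑ * gs b Kn n η))
        ≤ ∫⁻ ξ, (Kn * (w η * gs b Kn n η)) * (w (ξ - η) * ‖b (ξ - η)‖ₑ) := by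
          apply lintegral_mono
          intro ξ
          calc Kn * (w ξ * (‖b (ξ - η)‖ₑ * gs b Kn n η))
              ≤ Kn * ((w (ξ - η) * w η) * (‖b (ξ - η)‖ₑ * gs b Kn n η)) := by
                gcongr
                exact hsub ξ η
            _ = _ := by ring
      _ = (Kn * (w η * gs b Kn n η)) * ∫⁻ ξ, w (ξ - η) * ‖b (ξ - η)‖ₑ := lintegral_const_mul _ hm3
      _ = (Kn * (w η * gs b Kn n η)) * ∫⁻ ξ, w ξ * ‖b ξ‖ₑ := by
          rw [lintegral_sub_right_eq_self (fun ξ => w ξ * ‖b ξ‖ₑ) η]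
      _ = _ := by ring
  refine (lintegral_mono e2).trans ?_
  have hm4 : Measurable fun ξ => w ξ * gs b Kn n ξ := hw.mul hg
  rw [lintegral_const_mul _ hm4]

theorem gs_w' {b : ℂ → ℂ} (hb : Continuous b) (Kn : ℝ≥0∞) {w : ℂ → ℝ≥0∞} (hw : Measurable w)
    (hsub : ∀ ξ η, w ξ ≤ w (ξ - η) * w η) (hh : Kn * (∫⁻ ξ, w ξ * ‖b ξ‖ₑ) ≤ 2⁻¹) (n : ℕ) :
    ∫⁻ ξ, w ξ * gs b Kn n ξ ≤ (∫⁻ ξ, w ξ * ‖b ξ‖ₑ) * 2⁻¹ ^ n := by
  induction n with
  | zero => simp [gs]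
  | succ n ih =>
    refine (gs_w hb Kn hw hsub n).trans ?_
    calc Kn * (∫⁻ ξ, w ξ * ‖b ξ‖ₑ) * ∫⁻ ξ, w ξ * gs b Kn n ξ
        ≤ 2⁻¹ * ((∫⁻ ξ, w ξ * ‖b ξ‖ₑ) * 2⁻¹ ^ n) := by gcongr
      _ = _ := by
        rw [pow_succ]
        ring

/-- the majorant of the sum -/
def GG (b : ℂ → ℂ) (Kn : ℝ≥0∞) (ξ : ℂ) : ℝ≥0∞ := ∑' n, gs b Kn n ξ

theorem GG_w {b : ℂ → ℂ} (hb : Continuous b) (Kn : ℝ≥0∞) {w : ℂ → ℝ≥0∞} (hw : Measurable w)
    (hsub : ∀ ξ η, w ξ ≤ w (ξ - η) * w η) (hh : Kn * (∫⁻ ξ, w ξ * ‖b ξ‖ₑ) ≤ 2⁻¹) :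
    ∫⁻ ξ, w ξ * GG b Kn ξ ≤ 2 * ∫⁻ ξ, w ξ * ‖b ξ‖ₑ := by
  unfold GG
  simp only [← ENNReal.tsum_mul_left]
  have hm5 : ∀ n, Measurable fun ξ => w ξ * gs b Kn n ξ := fun n => hw.mul (gs_meas hb Kn n)
  rw [lintegral_tsum (fun n => (hm5 n).aemeasurable)]
  refine (ENNReal.tsum_le_tsum (gs_w' hb Kn hw hsub hh)).trans ?_
  rw [ENNReal.tsum_mul_left, ENNReal.tsum_geometric, ENNReal.one_sub_inv_two, inv_inv, mul_comm]

theorem pow_wt (δ x : ℝ) (h0 : 0 ≤ δ) (h1 : δ ≤ 1) (hx : 0 ≤ x) (k : ℕ) :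
    (1 + δ * x) ^ k ≤ 1 + δ * ((1 + x) ^ k - 1) := by
  induction k with
  | zero => simp
  | succ k ih =>
    have hA : 1 ≤ (1 + x) ^ k := one_le_pow₀ (by linarith)
    have h2 : (1 + δ * x) ^ (k + 1) ≤ (1 + δ * ((1 + x) ^ k - 1)) * (1 + δ * x) := by
      rw [pow_succ]
      exact mul_le_mul_of_nonneg_right ih (by positivity)
    refine h2.trans ?_
    rw [pow_succ]
    have h3 : 0 ≤ δ * x * ((1 + x) ^ k - 1) := mul_nonneg (by positivity) (by linarith)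
    nlinarith

/-- the weights -/
def wt (δ : ℝ) (k : ℕ) (ξ : ℂ) : ℝ≥0∞ := ENNReal.ofReal ((1 + δ * ‖ξ‖) ^ k)

theorem wt_meas (δ : ℝ) (k : ℕ) : Measurable (wt δ k) := by
  unfold wt
  fun_prop

theorem wt_sub (δ : ℝ) (h0 : 0 ≤ δ) (k : ℕ) (ξ η : ℂ) : wt δ k ξ ≤ wt δ k (ξ - η) * wt δ k η := by
  unfold wt
  rw [← ENNReal.ofReal_mul (by positivity), ← mul_pow]
  apply ENNReal.ofReal_le_ofReal
  apply pow_le_pow_left₀ (by positivity)
  have h1 : ‖ξ‖ ≤ ‖ξ - η‖ + ‖η‖ := by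
    have := norm_add_le (ξ - η) η
    simpa using this
  have h2 : 0 ≤ δ * ‖ξ - η‖ * (δ * ‖η‖) := by positivity
  nlinarith [mul_le_mul_of_nonneg_left h1 h0]

theorem neu : S_NEU := by
  intro b m K hb hm hmK hK hbw hbB hKb
  obtain ⟨B, hB⟩ := hbB
  set Kn : ℝ≥0∞ := ENNReal.ofReal K with hKn
  have hmK' : ∀ ξ, ‖m ξ‖ₑ ≤ Kn := by
    intro ξ
    rw [hKn, ← ofReal_norm_eq_enorm]
    exact ENNReal.ofReal_le_ofReal (hmK ξ)
  have hbi : Integrable b := by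
    have h := hbw 0
    simp only [pow_zero, one_mul] at h
    exact (integrable_norm_iff hb.aestronglyMeasurable).1 h
  -- weighted integrals of `b`
  have hMk : ∀ k : ℕ, ∫⁻ ξ, wt 1 k ξ * ‖b ξ‖ₑ < ∞ := by
    intro k
    have h := (hbw k).2
    have e : ∀ ξ : ℂ, ‖(1 + ‖ξ‖) ^ k * ‖b ξ‖‖ₑ = wt 1 k ξ * ‖b ξ‖ₑ := by
      intro ξ
      unfold wt
      rw [enorm_mul, enorm_norm, one_mul]
      congr 1
      rw [← ofReal_norm_eq_enorm, Real.norm_of_nonneg (by positivity)]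
    unfold HasFiniteIntegral at h
    simpa only [e] using h
  have hI0 : ∫⁻ ξ, ‖b ξ‖ₑ = ENNReal.ofReal (∫ ξ, ‖b ξ‖) := by
    rw [ofReal_integral_norm_eq_lintegral_enorm hbi]
  have hKI : Kn * ∫⁻ ξ, ‖b ξ‖ₑ ≤ ENNReal.ofReal (1 / 4) := by
    rw [hI0, hKn, ← ENNReal.ofReal_mul hK.le]
    exact ENNReal.ofReal_le_ofReal hKb
  have h14 : ENNReal.ofReal (1 / 4) + ENNReal.ofReal (1 / 4) = 2⁻¹ := by
    rw [← ENNReal.ofReal_add (by norm_num) (by norm_num)]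
    have e : (1 / 4 + 1 / 4 : ℝ) = 2⁻¹ := by norm_num
    rw [e, ENNReal.ofReal_inv_of_pos (by norm_num)]
    simp
  have h14' : ENNReal.ofReal (1 / 4) ≤ 2⁻¹ := by rw [← h14]; exact le_self_add
  -- weight one
  have hw1 : ∫⁻ ξ, GG b Kn ξ ≤ 2 * ∫⁻ ξ, ‖b ξ‖ₑ := by
    have h := GG_w hb Kn (w := fun _ => 1) measurable_const (fun _ _ => by simp)
      (by simp only [one_mul]; exact hKI.trans h14')
    simpa only [one_mul] using h
  -- all weights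
  have hwk : ∀ k : ℕ, ∫⁻ ξ, wt 1 k ξ * GG b Kn ξ < ∞ := by
    intro k
    set R : ℝ := (Kn * ∫⁻ ξ, wt 1 k ξ * ‖b ξ‖ₑ).toReal with hR
    have hRf : Kn * ∫⁻ ξ, wt 1 k ξ * ‖b ξ‖ₑ ≠ ∞ := (ENNReal.mul_lt_top ENNReal.ofReal_lt_top (hMk k)).ne
    have hR0 : 0 ≤ R := ENNReal.toReal_nonneg
    set δ : ℝ := 1 / (4 * (R + 1)) with hδ
    have hδ0 : 0 < δ := by positivity
    have hδ1 : δ ≤ 1 := by
      rw [hδ, div_le_one (by positivity)]
      linarith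
    have hδR : δ * R ≤ 1 / 4 := by
      rw [hδ, div_mul_eq_mul_div, div_le_div_iff₀ (by positivity) (by norm_num)]
      linarith
    have hle : ∀ ξ, wt δ k ξ ≤ 1 + ENNReal.ofReal δ * wt 1 k ξ := by
      intro ξ
      unfold wt
      rw [← ENNReal.ofReal_mul hδ0.le, ← ENNReal.ofReal_one, ← ENNReal.ofReal_add (by norm_num) (by positivity)]
      apply ENNReal.ofReal_le_ofReal
      have := pow_wt δ ‖ξ‖ hδ0.le hδ1 (norm_nonneg _) k
      rw [one_mul]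
      linarith
    have hbm : Measurable fun ξ => ‖b ξ‖ₑ := hb.measurable.enorm
    have h1 : ∫⁻ ξ, wt δ k ξ * ‖b ξ‖ₑ ≤ (∫⁻ ξ, ‖b ξ‖ₑ) + ENNReal.ofReal δ * ∫⁻ ξ, wt 1 k ξ * ‖b ξ‖ₑ := by
      have hm6 : Measurable fun ξ => wt 1 k ξ * ‖b ξ‖ₑ := (wt_meas 1 k).mul hbm
      rw [← lintegral_const_mul _ hm6, ← lintegral_add_left hbm]
      apply lintegral_mono
      intro ξ
      calc wt δ k ξ * ‖b ξ‖ₑ ≤ (1 + ENNReal.ofReal δ * wt 1 k ξ) * ‖b ξ‖ₑ := by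
            gcongr
            exact hle ξ
        _ = ‖b ξ‖ₑ + ENNReal.ofReal δ * (wt 1 k ξ * ‖b ξ‖ₑ) := by ring
    have h2 : Kn * ∫⁻ ξ, wt δ k ξ * ‖b ξ‖ₑ ≤ 2⁻¹ := by
      calc Kn * ∫⁻ ξ, wt δ k ξ * ‖b ξ‖ₑ
          ≤ Kn * ((∫⁻ ξ, ‖b ξ‖ₑ) + ENNReal.ofReal δ * ∫⁻ ξ, wt 1 k ξ * ‖b ξ‖ₑ) := by gcongr
        _ = Kn * (∫⁻ ξ, ‖b ξ‖ₑ) + ENNReal.ofReal δ * (Kn * ∫⁻ ξ, wt 1 k ξ * ‖b ξ‖ₑ) := by ring
        _ ≤ ENNReal.ofReal (1 / 4) + ENNReal.ofReal (1 / 4) := by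
            gcongr
            rw [← ENNReal.ofReal_toReal hRf, ← ENNReal.ofReal_mul hδ0.le]
            exact ENNReal.ofReal_le_ofReal hδR
        _ = 2⁻¹ := h14
    have h3 := GG_w hb Kn (wt_meas δ k) (wt_sub δ hδ0.le k) h2
    have h4 : ∫⁻ ξ, wt δ k ξ * ‖b ξ‖ₑ < ∞ := by
      refine h1.trans_lt ?_
      have h5 : ∫⁻ ξ, ‖b ξ‖ₑ < ∞ := by rw [hI0]; exact ENNReal.ofReal_lt_top
      exact ENNReal.add_lt_top.2 ⟨h5, ENNReal.mul_lt_top ENNReal.ofReal_lt_top (hMk k)⟩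
    have h5 : ∫⁻ ξ, wt δ k ξ * GG b Kn ξ < ∞ := h3.trans_lt (ENNReal.mul_lt_top (by simp) h4)
    have hcmp : ∀ ξ, wt 1 k ξ ≤ ENNReal.ofReal ((δ⁻¹) ^ k) * wt δ k ξ := by
      intro ξ
      unfold wt
      rw [← ENNReal.ofReal_mul (by positivity), ← mul_pow]
      apply ENNReal.ofReal_le_ofReal
      apply pow_le_pow_left₀ (by positivity)
      have e1 : δ⁻¹ * (1 + δ * ‖ξ‖) = δ⁻¹ + ‖ξ‖ := by
        field_simp
      rw [e1, one_mul]
      have : 1 ≤ δ⁻¹ := (one_le_inv₀ hδ0).2 hδ1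
      linarith
    have hGm : Measurable (GG b Kn) := by
      unfold GG
      exact Measurable.ennreal_tsum (gs_meas hb Kn)
    calc ∫⁻ ξ, wt 1 k ξ * GG b Kn ξ ≤ ∫⁻ ξ, ENNReal.ofReal ((δ⁻¹) ^ k) * (wt δ k ξ * GG b Kn ξ) := by
          apply lintegral_mono
          intro ξ
          simp only
          rw [← mul_assoc]
          gcongr
          exact hcmp ξ
      _ = ENNReal.ofReal ((δ⁻¹) ^ k) * ∫⁻ ξ, wt δ k ξ * GG b Kn ξ :=
          lintegral_const_mul _ ((wt_meas δ k).mul hGm)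
      _ < ∞ := ENNReal.mul_lt_top ENNReal.ofReal_lt_top h5
  -- bound in sup norm
  have hB0 : 0 ≤ B := (norm_nonneg _).trans (hB 0)
  have hBe : ∀ ξ, ‖b ξ‖ₑ ≤ ENNReal.ofReal B := by
    intro ξ
    rw [← ofReal_norm_eq_enorm]
    exact ENNReal.ofReal_le_ofReal (hB ξ)
  have hGm : Measurable (GG b Kn) := by
    unfold GG
    exact Measurable.ennreal_tsum (gs_meas hb Kn)
  set U : ℝ≥0∞ := ENNReal.ofReal B + Kn * (ENNReal.ofReal B * ∫⁻ ξ, GG b Kn ξ) with hU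
  have hI1 : ∫⁻ ξ, ‖b ξ‖ₑ < ∞ := by rw [hI0]; exact ENNReal.ofReal_lt_top
  have hUf : U < ∞ := by
    rw [hU]
    refine ENNReal.add_lt_top.2 ⟨ENNReal.ofReal_lt_top, ENNReal.mul_lt_top ENNReal.ofReal_lt_top
      (ENNReal.mul_lt_top ENNReal.ofReal_lt_top (hw1.trans_lt (ENNReal.mul_lt_top (by simp) hI1)))⟩
  have hGU : ∀ ξ, GG b Kn ξ ≤ U := by
    intro ξ
    unfold GG
    rw [tsum_eq_zero_add' ENNReal.summable, hU]
    apply add_le_add (hBe ξ)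
    have e1 : ∀ n, gs b Kn (n + 1) ξ ≤ Kn * (ENNReal.ofReal B * ∫⁻ η, gs b Kn n η) := by
      intro n
      show Kn * ∫⁻ η, ‖b (ξ - η)‖ₑ * gs b Kn n η ≤ _
      gcongr
      rw [← lintegral_const_mul _ (gs_meas hb Kn n)]
      apply lintegral_mono
      intro η
      simp only
      gcongr
      exact hBe _
    refine (ENNReal.tsum_le_tsum e1).trans ?_
    rw [ENNReal.tsum_mul_left, ENNReal.tsum_mul_left]
    unfold GG
    rw [lintegral_tsum (fun n => (gs_meas hb Kn n).aemeasurable)]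
  -- the solution
  have hsum : ∀ ξ, Summable fun n => hs b m n ξ := by
    intro ξ
    apply Summable.of_norm
    have h1 : ∑' n, ‖hs b m n ξ‖ₑ ≠ ∞ :=
      ((ENNReal.tsum_le_tsum fun n => hs_le hb hmK' n ξ).trans_lt ((hGU ξ).trans_lt hUf)).ne
    have h2 := ENNReal.summable_toReal h1
    simpa only [toReal_enorm] using h2
  have hle : ∀ ξ, ‖∑' n, hs b m n ξ‖ₑ ≤ GG b Kn ξ := by
    intro ξ
    exact (enorm_tsum_le_tsum_enorm).trans (ENNReal.tsum_le_tsum fun n => hs_le hb hmK' n ξ)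
  have hmeas : Measurable fun ξ => ∑' n, hs b m n ξ := by
    apply measurable_of_tendsto_metrizable (f := fun (N : ℕ) ξ => ∑ n ∈ Finset.range N, hs b m n ξ)
    · intro N
      exact Finset.measurable_sum _ (fun n _ => hs_meas hb hm n)
    · rw [tendsto_pi_nhds]
      intro ξ
      exact (hsum ξ).hasSum.tendsto_sum_nat
  refine ⟨fun ξ => ∑' n, hs b m n ξ, hmeas, ⟨U.toReal, fun ξ => ?_⟩, fun k => ⟨?_, ?_⟩, fun ξ => ?_, ?_⟩
  · have h1 : ‖∑' n, hs b m n ξ‖ₑ ≤ U := (hle ξ).trans (hGU ξ)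
    have h2 := ENNReal.toReal_mono hUf.ne h1
    simpa only [toReal_enorm] using h2
  · have : Measurable fun ξ : ℂ => (1 + ‖ξ‖) ^ k * ‖∑' n, hs b m n ξ‖ := by
      have := hmeas.norm
      fun_prop
    exact this.aestronglyMeasurable
  · have e : ∀ ξ : ℂ, ‖(1 + ‖ξ‖) ^ k * ‖∑' n, hs b m n ξ‖‖ₑ = wt 1 k ξ * ‖∑' n, hs b m n ξ‖ₑ := by
      intro ξ
      unfold wt
      rw [enorm_mul, enorm_norm, one_mul]
      congr 1
      rw [← ofReal_norm_eq_enorm, Real.norm_of_nonneg (by positivity)]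
    unfold HasFiniteIntegral
    simp only [e]
    refine lt_of_le_of_lt (lintegral_mono fun ξ => ?_) (hwk k)
    simp only
    gcongr
    exact hle ξ
  · -- the equation
    show ∑' n, hs b m n ξ = b ξ + ∫ η, b (ξ - η) * (m η * ∑' n, hs b m n η)
    rw [(hsum ξ).tsum_eq_zero_add]
    congr 1
    have e1 : (fun η => b (ξ - η) * (m η * ∑' n, hs b m n η)) =
        fun η => ∑' n, b (ξ - η) * (m η * hs b m n η) := by
      funext η
      rw [tsum_mul_left, tsum_mul_left]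
    rw [e1, integral_tsum]
    · rfl
    · intro n
      have : Measurable fun η => b (ξ - η) * (m η * hs b m n η) :=
        (hb.measurable.comp (measurable_const.sub measurable_id)).mul (hm.mul (hs_meas hb hm n))
      exact this.aestronglyMeasurable
    · have e2 : ∀ n, ∫⁻ η, ‖b (ξ - η) * (m η * hs b m n η)‖ₑ ≤ gs b Kn (n + 1) ξ := by
        intro n
        show _ ≤ Kn * ∫⁻ η, ‖b (ξ - η)‖ₑ * gs b Kn n η
        have hm1 : Measurable fun η => ‖b (ξ - η)‖ₑ * gs b Kn n η :=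
          (hb.measurable.comp (measurable_const.sub measurable_id)).enorm.mul (gs_meas hb Kn n)
        rw [← lintegral_const_mul Kn hm1]
        apply lintegral_mono
        intro η
        simp only [enorm_mul]
        calc ‖b (ξ - η)‖ₑ * (‖m η‖ₑ * ‖hs b m n η‖ₑ) ≤ ‖b (ξ - η)‖ₑ * (Kn * gs b Kn n η) := by
              gcongr
              · exact hmK' η
              · exact hs_le hb hmK' n η
          _ = Kn * (‖b (ξ - η)‖ₑ * gs b Kn n η) := by ring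
      have e3 : ∑' n, gs b Kn (n + 1) ξ ≤ GG b Kn ξ := by
        unfold GG
        rw [tsum_eq_zero_add' (f := fun n => gs b Kn n ξ) ENNReal.summable]
        exact le_add_self
      exact ((ENNReal.tsum_le_tsum e2).trans e3 |>.trans (hGU ξ) |>.trans_lt hUf).ne
  · -- the norm
    have h1 : Integrable fun ξ => ∑' n, hs b m n ξ := by
      refine ⟨hmeas.aestronglyMeasurable, ?_⟩
      unfold HasFiniteIntegral
      exact (lintegral_mono hle).trans_lt (hw1.trans_lt (ENNReal.mul_lt_top (by simp) hI1))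
    have h2 : ENNReal.ofReal (∫ ξ, ‖∑' n, hs b m n ξ‖) ≤ ENNReal.ofReal (2 * ∫ ξ, ‖b ξ‖) := by
      rw [ofReal_integral_norm_eq_lintegral_enorm h1, ENNReal.ofReal_mul (by norm_num), ← hI0]
      refine (lintegral_mono hle).trans (hw1.trans (le_of_eq ?_))
      simp
    exact (ENNReal.ofReal_le_ofReal_iff (mul_nonneg (by norm_num) (integral_nonneg fun _ => norm_nonneg _))).1 h2

end Pool.Agent.W918.PS
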